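import Pool.Agent.K4W.StmtsP

/-!
# Squad K4W, row DVS: few primes divide `r`
-/

set_option autoImplicit false

namespace Pool.Agent.K4W.H62

/-- **Row DVS**. -/
theorem dvs : DvsStmt := by
  intro Z r S hZ hr hlt hS
  set T := S.filter (fun μ => μ ∣ r) with hT
  have hTS : ∀ μ ∈ T, μ.Prime ∧ Z ^ 1000 < μ ∧ μ ∣ r := by
    intro μ hμ
    rw [hT, Finset.mem_filter] at hμ
    exact ⟨(hS μ hμ.1).1, (hS μ hμ.1).2, hμ.2⟩
  have h1 : ∏ μ ∈ T, μ ∣ r :=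
    Finset.prod_primes_dvd r (fun μ hμ => (hTS μ hμ).1.prime) (fun μ hμ => (hTS μ hμ).2.2)
  have h2 : ∏ μ ∈ T, μ ≤ r := Nat.le_of_dvd hr h1
  have h3 : (Z ^ 1000) ^ T.card ≤ ∏ μ ∈ T, μ :=
    Finset.pow_card_le_prod _ _ _ (fun μ hμ => (hTS μ hμ).2.1.le)
  have h4 : Z ^ (1000 * T.card) < Z ^ 65000 := by
    rw [pow_mul]
    exact lt_of_le_of_lt (h3.trans h2) hlt
  have h5 : 1000 * T.card < 65000 := (Nat.pow_lt_pow_iff_right (by omega)).1 h4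
  omega

end Pool.Agent.K4W.H62
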