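import Pool.Agent.K4W.StmtsP

/-!
# Squad K4W, row LPS: the main part is Lipschitz in `β`
-/

set_option autoImplicit false

namespace Pool.Agent.K4W.H62

open Complex
open Pool.Agent.Helper69_Weyl (ee W)

/-- **Row LPS**. -/
theorem lps (hLip : LipStmt) (hGun : GunStmt) : LpsStmt := by
  intro N r M L S ψ v β β' u hN hr hS hψ
  have hr0 : 0 < r := hr.pos
  have hb : 0 ≤ (L : ℝ) * |β - β'| * (N : ℝ) ^ 3 / Real.sqrt (r : ℝ) := by positivity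
  unfold PS
  rw [← Finset.sum_sub_distrib]
  have hterm : ∀ μ ∈ S.filter (fun μ => ¬ μ ∣ r),
      ‖(ψ μ * (GS r (μ : ℤ) 0 / GS r 1 0)) *
        ∑ m ∈ (Finset.Icc (-(M : ℤ)) (M : ℤ)).filter (fun m => ¬ (μ : ℤ) ∣ m),
          cf N r ((μ : ℝ) * β) m * ee (((-(u * v μ * m ^ 2) : ℤ) : ℝ) / (r : ℝ)) -
      (ψ μ * (GS r (μ : ℤ) 0 / GS r 1 0)) *
        ∑ m ∈ (Finset.Icc (-(M : ℤ)) (M : ℤ)).filter (fun m => ¬ (μ : ℤ) ∣ m),
          cf N r ((μ : ℝ) * β') m * ee (((-(u * v μ * m ^ 2) : ℤ) : ℝ) / (r : ℝ))‖ ≤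
      (2 * (M : ℝ) + 1) * ((L : ℝ) * |β - β'| * (N : ℝ) ^ 3 / Real.sqrt (r : ℝ)) := by
    intro μ hμ
    rw [Finset.mem_filter] at hμ
    obtain ⟨hμS, hμr⟩ := hμ
    obtain ⟨hp, hL⟩ := hS μ hμS
    have hcop : IsCoprime (μ : ℤ) (r : ℤ) :=
      Nat.isCoprime_iff_coprime.2 ((Nat.Prime.coprime_iff_not_dvd hp).2 hμr)
    have hg := (hGun r (μ : ℤ) 1 hr hcop isCoprime_one_left).2.1
    rw [← mul_sub, norm_mul, norm_mul, hg, mul_one, ← Finset.sum_sub_distrib]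
    have h1 : ‖∑ m ∈ (Finset.Icc (-(M : ℤ)) (M : ℤ)).filter (fun m => ¬ (μ : ℤ) ∣ m),
          (cf N r ((μ : ℝ) * β) m * ee (((-(u * v μ * m ^ 2) : ℤ) : ℝ) / (r : ℝ)) -
          cf N r ((μ : ℝ) * β') m * ee (((-(u * v μ * m ^ 2) : ℤ) : ℝ) / (r : ℝ)))‖ ≤
        (2 * (M : ℝ) + 1) * ((L : ℝ) * |β - β'| * (N : ℝ) ^ 3 / Real.sqrt (r : ℝ)) := by
      refine (norm_sum_le_of_le _ (f := fun m => cf N r ((μ : ℝ) * β) m *
        ee (((-(u * v μ * m ^ 2) : ℤ) : ℝ) / (r : ℝ)) - cf N r ((μ : ℝ) * β') m *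
        ee (((-(u * v μ * m ^ 2) : ℤ) : ℝ) / (r : ℝ)))
        (fun m _ => show _ ≤ (L : ℝ) * |β - β'| * (N : ℝ) ^ 3 / Real.sqrt (r : ℝ) from ?_)).trans ?_
      · rw [← sub_mul, norm_mul, Pool.Agent.Helper69_Weyl.norm_ee, mul_one]
        refine (hLip N r _ _ m hN hr0).trans ?_
        rw [← mul_sub, abs_mul, Nat.abs_cast]
        have hμL : (μ : ℝ) ≤ L := by exact_mod_cast hL
        gcongr
      · rw [Finset.sum_const, nsmul_eq_mul]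
        apply mul_le_mul_of_nonneg_right _ hb
        have h2 : ((Finset.Icc (-(M : ℤ)) (M : ℤ)).filter (fun m => ¬ (μ : ℤ) ∣ m)).card ≤
            2 * M + 1 := by
          refine (Finset.card_filter_le _ _).trans ?_
          rw [Int.card_Icc]
          omega
        exact_mod_cast h2
    calc ‖ψ μ‖ * ‖∑ m ∈ (Finset.Icc (-(M : ℤ)) (M : ℤ)).filter (fun m => ¬ (μ : ℤ) ∣ m),
          (cf N r ((μ : ℝ) * β) m * ee (((-(u * v μ * m ^ 2) : ℤ) : ℝ) / (r : ℝ)) -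
          cf N r ((μ : ℝ) * β') m * ee (((-(u * v μ * m ^ 2) : ℤ) : ℝ) / (r : ℝ)))‖
        ≤ 1 * ((2 * (M : ℝ) + 1) * ((L : ℝ) * |β - β'| * (N : ℝ) ^ 3 / Real.sqrt (r : ℝ))) :=
          mul_le_mul (hψ μ hμS) h1 (norm_nonneg _) zero_le_one
      _ = _ := one_mul _
  refine (norm_sum_le_of_le _ hterm).trans ?_
  rw [Finset.sum_const, nsmul_eq_mul]
  have h3 : (((S.filter (fun μ => ¬ μ ∣ r)).card : ℕ) : ℝ) ≤ (S.card : ℝ) := by
    have := Finset.card_filter_le S (fun μ => ¬ μ ∣ r)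
    exact_mod_cast this
  have h4 : 0 ≤ (2 * (M : ℝ) + 1) * ((L : ℝ) * |β - β'| * (N : ℝ) ^ 3 / Real.sqrt (r : ℝ)) := by
    positivity
  have h5 := mul_le_mul_of_nonneg_right h3 h4
  linarith [h5]

end Pool.Agent.K4W.H62
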