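import Pool.Agent.K4W.StmtsM

/-!
# Squad K4W, row MPB: two coordinates
-/

set_option autoImplicit false

namespace Pool.Agent.K4W.H62

theorem mpb_count (hMsq : MsqStmt) {M q : ℕ} {K : ℝ} (hq : q.Prime)
    (hK : 2 * (2 * (M : ℝ) / (q : ℝ) + 1) ≤ K) {s' : ℤ} (hs : s' = 1 ∨ s' = -1) (a : ℤ) :
    ((((Tm M q).filter (fun y => (q : ℤ) ∣ s' * y ^ 2 + a)).card : ℕ) : ℝ) ≤ K := by
  refine le_trans ?_ ((hMsq M q (-(s' * a)) hq).trans hK)
  have h1 : ((Tm M q).filter (fun y => (q : ℤ) ∣ s' * y ^ 2 + a)) ⊆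
      ((Finset.Icc (-(M : ℤ)) (M : ℤ)).filter (fun m => (q : ℤ) ∣ m ^ 2 - (-(s' * a)))) := by
    intro y hy
    unfold Tm at hy
    rw [Finset.mem_filter, Finset.mem_filter] at hy
    rw [Finset.mem_filter]
    refine ⟨hy.1.1, ?_⟩
    have h2 : y ^ 2 - (-(s' * a)) = s' * (s' * y ^ 2 + a) := by
      rcases hs with rfl | rfl <;> ring
    rw [h2]
    exact Dvd.dvd.mul_left hy.2 _
  exact_mod_cast Finset.card_le_card h1

/-- **Row MPB**. -/
theorem mpb (hMsq : MsqStmt) : MpbStmt := by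
  intro M q s s' t c A₂ K hq hs hs' hc hA hK
  have hK0 : 0 ≤ K := by
    refine le_trans ?_ hK
    positivity
  have hx : ∀ x ∈ Tm M q, ∑ y ∈ Tm M q,
      (if (q : ℤ) ∣ s * x ^ 2 + s' * y ^ 2 + t then c x ^ 2 else 0) ≤ c x ^ 2 * K := by
    intro x _
    rw [← Finset.sum_filter, Finset.sum_const, nsmul_eq_mul, mul_comm]
    apply mul_le_mul_of_nonneg_left _ (sq_nonneg _)
    have h1 := mpb_count hMsq hq hK hs' (s * x ^ 2 + t)
    have h2 : (Tm M q).filter (fun y => (q : ℤ) ∣ s * x ^ 2 + s' * y ^ 2 + t) =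
        (Tm M q).filter (fun y => (q : ℤ) ∣ s' * y ^ 2 + (s * x ^ 2 + t)) := by
      apply Finset.filter_congr
      intro y _
      rw [show s * x ^ 2 + s' * y ^ 2 + t = s' * y ^ 2 + (s * x ^ 2 + t) by ring]
    rw [h2]
    exact h1
  have hy : ∀ y ∈ Tm M q, ∑ x ∈ Tm M q,
      (if (q : ℤ) ∣ s * x ^ 2 + s' * y ^ 2 + t then c y ^ 2 else 0) ≤ c y ^ 2 * K := by
    intro y _
    rw [← Finset.sum_filter, Finset.sum_const, nsmul_eq_mul, mul_comm]
    apply mul_le_mul_of_nonneg_left _ (sq_nonneg _)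
    have h1 := mpb_count hMsq hq hK hs (s' * y ^ 2 + t)
    have h2 : (Tm M q).filter (fun x => (q : ℤ) ∣ s * x ^ 2 + s' * y ^ 2 + t) =
        (Tm M q).filter (fun x => (q : ℤ) ∣ s * x ^ 2 + (s' * y ^ 2 + t)) := by
      apply Finset.filter_congr
      intro x _
      rw [show s * x ^ 2 + s' * y ^ 2 + t = s * x ^ 2 + (s' * y ^ 2 + t) by ring]
    rw [h2]
    exact h1
  have h1 : ∑ x ∈ Tm M q, ∑ y ∈ Tm M q,
      (if (q : ℤ) ∣ s * x ^ 2 + s' * y ^ 2 + t then c x ^ 2 else 0) ≤ A₂ * K := by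
    refine (Finset.sum_le_sum hx).trans ?_
    rw [← Finset.sum_mul]
    exact mul_le_mul_of_nonneg_right hA hK0
  have h2 : ∑ x ∈ Tm M q, ∑ y ∈ Tm M q,
      (if (q : ℤ) ∣ s * x ^ 2 + s' * y ^ 2 + t then c y ^ 2 else 0) ≤ A₂ * K := by
    rw [Finset.sum_comm]
    refine (Finset.sum_le_sum hy).trans ?_
    rw [← Finset.sum_mul]
    exact mul_le_mul_of_nonneg_right hA hK0
  have h3 : ∑ x ∈ Tm M q, ∑ y ∈ Tm M q,
        (if (q : ℤ) ∣ s * x ^ 2 + s' * y ^ 2 + t then c x * c y else 0) ≤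
      (1 / 2) * (∑ x ∈ Tm M q, ∑ y ∈ Tm M q,
        (if (q : ℤ) ∣ s * x ^ 2 + s' * y ^ 2 + t then c x ^ 2 else 0)) +
      (1 / 2) * (∑ x ∈ Tm M q, ∑ y ∈ Tm M q,
        (if (q : ℤ) ∣ s * x ^ 2 + s' * y ^ 2 + t then c y ^ 2 else 0)) := by
    rw [Finset.mul_sum, Finset.mul_sum, ← Finset.sum_add_distrib]
    apply Finset.sum_le_sum
    intro x _
    rw [Finset.mul_sum, Finset.mul_sum, ← Finset.sum_add_distrib]
    apply Finset.sum_le_sum
    intro y _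
    split_ifs
    · nlinarith [sq_nonneg (c x - c y)]
    · norm_num
  linarith

end Pool.Agent.K4W.H62
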