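import Pool.Agent.K4W.StmtsV

/-!
# Squad K4W, row PSL: the functions `ps`
-/

set_option autoImplicit false

namespace Pool.Agent.K4W.H62

open Pool.Agent.Helper69_Weyl

theorem exp_lip {x y : ℝ} (hx : 0 ≤ x) (hy : 0 ≤ y) : |Real.exp (-x) - Real.exp (-y)| ≤ |x - y| := by
  wlog h : x ≤ y generalizing x y with H
  · rw [abs_sub_comm, abs_sub_comm x y]
    exact H hy hx (by linarith)
  have h1 : Real.exp (-y) ≤ Real.exp (-x) := Real.exp_le_exp.2 (by linarith)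
  rw [abs_of_nonneg (by linarith), abs_of_nonpos (by linarith)]
  have h2 : Real.exp (-y) = Real.exp (-x) * Real.exp (-(y - x)) := by
    rw [← Real.exp_add]
    congr 1
    ring
  have h3 : 1 - (y - x) ≤ Real.exp (-(y - x)) := by
    have := Real.add_one_le_exp (-(y - x))
    linarith
  have h4 : Real.exp (-x) ≤ 1 := by
    rw [Real.exp_le_one_iff]
    linarith
  have h5 := Real.exp_pos (-x)
  rw [h2]
  nlinarith [Real.exp_pos (-(y - x))]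

/-- **Row PSL**. -/
theorem psl : PslStmt := by
  have hn : ∀ (x : ℝ), 0 ≤ x → ‖((Real.exp (-x) : ℝ) : ℂ)‖ ≤ 1 := by
    intro x hx
    rw [Complex.norm_real, Real.norm_eq_abs, abs_of_pos (Real.exp_pos _), Real.exp_le_one_iff]
    linarith
  refine ⟨?_, ?_, ?_⟩
  · intro α β l μ hl
    unfold ps
    rw [norm_mul, norm_ee, one_mul]
    exact hn _ (by positivity)
  · intro α β l m n μ
    unfold ps
    congr 1
    have e : (α - (m : ℝ)) * (μ : ℝ) ^ 3 + (β - (n : ℝ)) * (μ : ℝ) =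
        (α * (μ : ℝ) ^ 3 + β * (μ : ℝ)) + ((-(m * (μ : ℤ) ^ 3 + n * (μ : ℤ)) : ℤ) : ℝ) := by
      push_cast
      ring
    rw [e, ee_add, ee_int, mul_one]
  · intro α β l α' β' l' μ hl hl'
    unfold ps
    have e : ee (α * (μ : ℝ) ^ 3 + β * (μ : ℝ)) * ((Real.exp (-(l * (μ : ℝ) ^ 2)) : ℝ) : ℂ) -
        ee (α' * (μ : ℝ) ^ 3 + β' * (μ : ℝ)) * ((Real.exp (-(l' * (μ : ℝ) ^ 2)) : ℝ) : ℂ) =
        (ee (α * (μ : ℝ) ^ 3 + β * (μ : ℝ)) - ee (α' * (μ : ℝ) ^ 3 + β' * (μ : ℝ))) *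
          ((Real.exp (-(l * (μ : ℝ) ^ 2)) : ℝ) : ℂ) +
        ee (α' * (μ : ℝ) ^ 3 + β' * (μ : ℝ)) *
          ((Real.exp (-(l * (μ : ℝ) ^ 2)) - Real.exp (-(l' * (μ : ℝ) ^ 2)) : ℝ) : ℂ) := by
      push_cast
      ring
    rw [e]
    refine (norm_add_le _ _).trans (add_le_add ?_ ?_)
    · rw [norm_mul]
      have h1 := norm_ee_sub_le (α * (μ : ℝ) ^ 3 + β * (μ : ℝ)) (α' * (μ : ℝ) ^ 3 + β' * (μ : ℝ))
      have h2 : |α * (μ : ℝ) ^ 3 + β * (μ : ℝ) - (α' * (μ : ℝ) ^ 3 + β' * (μ : ℝ))| ≤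
          |α - α'| * (μ : ℝ) ^ 3 + |β - β'| * (μ : ℝ) := by
        have e2 : α * (μ : ℝ) ^ 3 + β * (μ : ℝ) - (α' * (μ : ℝ) ^ 3 + β' * (μ : ℝ)) =
            (α - α') * (μ : ℝ) ^ 3 + (β - β') * (μ : ℝ) := by ring
        rw [e2]
        refine (abs_add_le _ _).trans ?_
        rw [abs_mul, abs_mul, abs_of_nonneg (show (0 : ℝ) ≤ (μ : ℝ) ^ 3 by positivity),
          Nat.abs_cast]
      calc ‖ee (α * (μ : ℝ) ^ 3 + β * (μ : ℝ)) - ee (α' * (μ : ℝ) ^ 3 + β' * (μ : ℝ))‖ *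
            ‖((Real.exp (-(l * (μ : ℝ) ^ 2)) : ℝ) : ℂ)‖
          ≤ ‖ee (α * (μ : ℝ) ^ 3 + β * (μ : ℝ)) - ee (α' * (μ : ℝ) ^ 3 + β' * (μ : ℝ))‖ * 1 :=
            mul_le_mul_of_nonneg_left (hn _ (by positivity)) (norm_nonneg _)
        _ ≤ 2 * Real.pi * |α * (μ : ℝ) ^ 3 + β * (μ : ℝ) -
              (α' * (μ : ℝ) ^ 3 + β' * (μ : ℝ))| := by
            rw [mul_one]
            exact h1
        _ ≤ _ := mul_le_mul_of_nonneg_left h2 (by positivity)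
    · rw [norm_mul, norm_ee, one_mul, Complex.norm_real, Real.norm_eq_abs]
      refine (exp_lip (by positivity) (by positivity)).trans ?_
      rw [← sub_mul, abs_mul, abs_of_nonneg (show (0 : ℝ) ≤ (μ : ℝ) ^ 2 by positivity)]

end Pool.Agent.K4W.H62
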