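import Pool.Agent.K4W.StmtsF

/-!
# Squad K4W, row RDH: `H` outside of the two cusps has a good rational approximation
-/

set_option autoImplicit false

namespace Pool.Agent.K4W.H62

open Pool.Agent.VM (Nr)

/-- **Row RDH**. -/
theorem rdh (hLat : LatStmt) : RdhStmt := by
  intro Z N t H hZ hSz h1 h2
  have hN : 1 ≤ N := by
    refine le_trans ?_ hSz.1
    exact Nat.one_le_pow _ _ (by omega)
  have hD : 2 ≤ Z ^ 84 := by
    calc 2 ≤ Z := hZ
      _ = Z ^ 1 := (pow_one Z).symm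
      _ ≤ Z ^ 84 := Nat.pow_le_pow_right (by omega) (by norm_num)
  rcases hLat (48 * t * (H : ℝ)) N (Z ^ 84) hN hD with ⟨r, b, hr, hrD, hab⟩ |
    ⟨r, b, hodd, hlt, hle, hg, hab⟩
  · exfalso
    apply h1
    refine ⟨r, hr, hrD, b, ?_⟩
    rw [mul_comm (48 * t * (H : ℝ)) (r : ℝ)]
    push_cast at hab
    exact hab
  · have hr0 : 0 < r := hodd.pos
    have hr0' : (0 : ℝ) < r := by exact_mod_cast hr0
    have e : (r : ℝ) * |48 * t * (H : ℝ) - (b : ℝ) / (r : ℝ)| =
        |(r : ℝ) * (48 * t * (H : ℝ)) - (b : ℝ)| := by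
      rw [← abs_of_pos hr0', ← abs_mul, abs_of_pos hr0']
      congr 1
      field_simp
    refine ⟨r, b, hodd, hlt, hle, hg, ?_, ?_⟩
    · rw [e]
      push_cast at hab
      exact hab
    · rw [e]
      by_contra hcon
      push Not at hcon
      apply h2
      refine ⟨r, hr0, hle, b, ?_⟩
      rw [mul_comm (48 * t * (H : ℝ)) (r : ℝ)]
      exact hcon.le

end Pool.Agent.K4W.H62
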