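import Pool.Agent.K4W.StmtsW

/-!
# Squad K4W, row WDG: the degree of a polynomial counted with its prime powers
-/

set_option autoImplicit false

namespace Pool.Agent.K4W.H62

open Polynomial UniqueFactorizationMonoid

theorem sum_le_count (n c e : ℕ) (hc : c ≤ n) :
    ∑ k ∈ Finset.Icc 1 n, (if k ≤ c then e else 0) = c * e := by
  rw [← Finset.sum_filter]
  have h : (Finset.Icc 1 n).filter (fun k => k ≤ c) = Finset.Icc 1 c := by
    ext k
    rw [Finset.mem_filter, Finset.mem_Icc, Finset.mem_Icc]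
    omega
  rw [h, Finset.sum_const, Nat.card_Icc, smul_eq_mul]
  rfl

open Classical in
theorem pow_dvd_iff_count {p : ℕ} [Fact p.Prime] {P g : (ZMod p)[X]} (hP : Irreducible P)
    (hm : P.Monic)
    (hg : g ≠ 0) (k : ℕ) : P ^ k ∣ g ↔ k ≤ (normalizedFactors g).count P := by
  rw [pow_dvd_iff_le_emultiplicity, emultiplicity_eq_count_normalizedFactors hP hg,
    hm.normalize_eq_self]
  exact Nat.cast_le

open Classical in
/-- **Row WDG**. -/
theorem wdg (hWmn : WmnStmt) : WdgStmt := by
  intro p _ n g hg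
  rw [hWmn] at hg
  obtain ⟨hgm, hgd⟩ := hg
  have hg0 : g ≠ 0 := hgm.ne_zero
  set S := normalizedFactors g with hS
  have hSm : ∀ P ∈ S, P.Monic := by
    intro P hP
    have h1 := normalize_normalized_factor P hP
    have h2 : P ≠ 0 := (irreducible_of_normalized_factor P hP).ne_zero
    rw [← h1]
    exact monic_normalize h2
  have hSi : ∀ P ∈ S, Irreducible P := fun P hP => irreducible_of_normalized_factor P hP
  have hSp : S.prod = g := by
    rw [hS, prod_normalizedFactors_eq hg0, hgm.normalize_eq_self]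
  have hdeg : n = ∑ P ∈ S.toFinset, S.count P * P.natDegree := by
    have h1 := natDegree_multiset_prod_of_monic S hSm
    rw [hSp, hgd, Finset.sum_multiset_map_count] at h1
    simpa only [smul_eq_mul] using h1
  have hmi : ∀ (e : ℕ) (P : (ZMod p)[X]), P ∈ irr p e ↔
      (P.Monic ∧ P.natDegree = e) ∧ Irreducible P := by
    intro e P
    unfold irr
    rw [Finset.mem_filter, hWmn]
  -- the inner sums
  have hcount : ∀ (P : (ZMod p)[X]), P.Monic → Irreducible P → S.count P ≤ n := by
    intro P hPm hPi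
    have h1 : P ^ (S.count P) ∣ g := (pow_dvd_iff_count hPi hPm hg0 _).2 le_rfl
    have h2 := natDegree_le_of_dvd h1 hg0
    rw [natDegree_pow, hgd] at h2
    have h3 : 1 ≤ P.natDegree := hPi.natDegree_pos
    nlinarith
  have hin : ∀ e ∈ Finset.Icc 1 n, (∑ P ∈ irr p e, ∑ k ∈ Finset.Icc 1 n,
      if P ^ k ∣ g then e else 0) = ∑ P ∈ irr p e, S.count P * P.natDegree := by
    intro e _
    apply Finset.sum_congr rfl
    intro P hP
    rw [hmi] at hP
    obtain ⟨⟨hPm, hPd⟩, hPi⟩ := hP
    rw [hPd, ← sum_le_count n (S.count P) e (hcount P hPm hPi)]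
    apply Finset.sum_congr rfl
    intro k _
    have h1 := pow_dvd_iff_count hPi hPm hg0 k
    by_cases h : P ^ k ∣ g
    · rw [if_pos h, if_pos (h1.1 h)]
    · rw [if_neg h, if_neg (fun h' => h (h1.2 h'))]
  rw [Finset.sum_congr rfl hin, ← Finset.sum_biUnion]
  · conv_lhs => rw [hdeg]
    apply Finset.sum_subset
    · intro P hP
      rw [Multiset.mem_toFinset] at hP
      rw [Finset.mem_biUnion]
      refine ⟨P.natDegree, ?_, (hmi _ _).2 ⟨⟨hSm P hP, rfl⟩, hSi P hP⟩⟩
      rw [Finset.mem_Icc]
      refine ⟨(hSi P hP).natDegree_pos, ?_⟩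
      have h1 : P ∣ g := dvd_of_mem_normalizedFactors hP
      rw [← hgd]
      exact natDegree_le_of_dvd h1 hg0
    · intro P _ hP
      rw [Multiset.mem_toFinset] at hP
      rw [Multiset.count_eq_zero_of_notMem hP, zero_mul]
  · intro a _ b _ hab
    rw [Function.onFun, Finset.disjoint_left]
    intro P hPa hPb
    rw [hmi] at hPa hPb
    exact hab (hPa.1.2.symm.trans hPb.1.2)

end Pool.Agent.K4W.H62
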